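import Pool.Agent.H51.EI.TargetsD

set_option autoImplicit false

open Polynomial Finset

namespace Pool.Agent.H90.EI.FRK

open Pool.Agent.H51.EI

section

variable {O : Subring ℂ} {F0 : Type} [Field F0] [Algebra O F0] [IsFractionRing O F0]

private theorem inj : Function.Injective (O.subtype) := Subtype.val_injective

private theorem toC_ne {P : (↥O)[X]} (h : P ≠ 0) : toC P ≠ 0 := by
  unfold toC
  rwa [Ne, Polynomial.map_eq_zero_iff inj]

private theorem toC_mul (P Q : (↥O)[X]) : toC (P * Q) = toC P * toC Q := by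
  unfold toC
  exact Polynomial.map_mul _

private theorem lc_ge (hD : Disc O) {P : (↥O)[X]} (hP : P ≠ 0) :
    (1 : ℝ) ≤ ‖(toC P).leadingCoeff‖ := by
  have e1 : (toC P).leadingCoeff = ((P.leadingCoeff : O) : ℂ) := by
    unfold toC
    rw [leadingCoeff_map_of_injective inj]
    rfl
  rw [e1]
  exact hD _ (leadingCoeff_ne_zero.mpr hP)

private theorem logM_nonneg (hD : Disc O) {P : (↥O)[X]} (hP : P ≠ 0) :
    0 ≤ (toC P).logMahlerMeasure := by
  rw [logMahlerMeasure_eq_log_MahlerMeasure]
  exact Real.log_nonneg (one_le_mahlerMeasure_of_one_le_norm_leadingCoeff (lc_ge hD hP))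

private theorem logM_le {D : (↥O)[X]} (hD : D ≠ 0) :
    (toC D).logMahlerMeasure ≤ Real.log (plen D) := by
  rw [logMahlerMeasure_eq_log_MahlerMeasure]
  refine Real.log_le_log (mahlerMeasure_pos_of_ne_zero (toC_ne hD)) ?_
  refine (mahlerMeasure_le_sum_norm_coeff _).trans (le_of_eq ?_)
  unfold plen toC
  rw [Polynomial.sum_def, support_map_of_injective _ inj]
  refine Finset.sum_congr rfl fun i _ => ?_
  rw [coeff_map]
  simp

private theorem res_prod (N : ℕ) (H : ℝ) (g : ℂ → ℝ) (Q : (↥O)[X]) (T : Multiset ℂ)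
    (h : ∀ β ∈ T, ‖ev Q β‖ ≤ Real.exp H * (max 1 ‖β‖) ^ N * Real.exp (-(g β))) :
    ‖(T.map (fun β => ev Q β)).prod‖ ≤ Real.exp ((Multiset.card T) * H +
      N * (T.map (fun β => Real.log (max 1 ‖β‖))).sum - (T.map g).sum) := by
  induction T using Multiset.induction_on with
  | empty => simp
  | cons a T ih =>
    have h1 := h a (Multiset.mem_cons_self a T)
    have h2 := ih (fun β hβ => h β (Multiset.mem_cons_of_mem hβ))
    simp only [Multiset.map_cons, Multiset.sum_cons, Multiset.prod_cons,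
      Multiset.card_cons, norm_mul]
    have hm : (0:ℝ) < max 1 ‖a‖ := lt_of_lt_of_le one_pos (le_max_left _ _)
    have e1 : Real.exp H * (max 1 ‖a‖) ^ N * Real.exp (-(g a)) =
        Real.exp (H + N * Real.log (max 1 ‖a‖) - g a) := by
      have : (max 1 ‖a‖) ^ N = Real.exp (N * Real.log (max 1 ‖a‖)) := by
        rw [mul_comm, Real.exp_mul, Real.exp_log hm, Real.rpow_natCast]
      rw [this, ← Real.exp_add, ← Real.exp_add]
      congr 1
    rw [e1] at h1
    calc _ ≤ Real.exp (H + N * Real.log (max 1 ‖a‖) - g a) * Real.exp ((Multiset.card T) * H +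
      N * (T.map (fun β => Real.log (max 1 ‖β‖))).sum - (T.map g).sum) :=
          mul_le_mul h1 h2 (norm_nonneg _) (Real.exp_pos _).le
      _ = _ := by
        rw [← Real.exp_add]
        congr 1
        push_cast
        ring

/-- inclusion of the field of fractions -/
private noncomputable def io (O : Subring ℂ) (F0 : Type) [Field F0] [Algebra O F0]
    [IsFractionRing O F0] : F0 →+* ℂ :=
  IsFractionRing.lift (K := F0) (g := O.subtype) Subtype.val_injective

private theorem io_alg (x : O) : io O F0 (algebraMap O F0 x) = (x : ℂ) :=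
  IsFractionRing.lift_algebraMap (K := F0) (g := O.subtype) Subtype.val_injective x

variable (F0) in
private theorem map_io (P : (↥O)[X]) :
    (P.map (algebraMap O F0)).map (io O F0) = toC P := by
  rw [Polynomial.map_map]
  have h : (io O F0).comp (algebraMap O F0) = O.subtype := by
    apply RingHom.ext
    intro x
    rw [RingHom.comp_apply, io_alg]
    rfl
  rw [h]
  rfl

private theorem content_pow (hGAU : ∀ f g : (↥O)[X],
    (f * g).contentIdeal = f.contentIdeal * g.contentIdeal) (P : (↥O)[X]) (n : ℕ) :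
    (P ^ n).contentIdeal = P.contentIdeal ^ n := by
  induction n with
  | zero => simp
  | succ n ih => rw [pow_succ, hGAU, ih, pow_succ]

private theorem prim (hGAU : ∀ f g : (↥O)[X],
    (f * g).contentIdeal = f.contentIdeal * g.contentIdeal) {n : ℕ}
    (hcl : ∀ I : Ideal O, ∃ e : O, I ^ n = Ideal.span {e})
    (R : F0[X]) (hR : R ≠ 0) :
    ∃ P : (↥O)[X], P.contentIdeal = ⊤ ∧ P ≠ 0 ∧ ∃ u : F0, u ≠ 0 ∧
      P.map (algebraMap O F0) = C u * R ^ n := by
  have hinj : Function.Injective (algebraMap O F0) :=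
    IsFractionRing.injective O F0
  obtain ⟨b, hbm, hb⟩ := IsLocalization.integerNormalization_spec (nonZeroDivisors O) R
  set P' := IsLocalization.integerNormalization (nonZeroDivisors O) R with hP'
  have hb0 : (b : O) ≠ 0 := nonZeroDivisors.ne_zero hbm
  have hba : algebraMap O F0 (b : O) ≠ 0 := by
    rw [Ne, map_eq_zero_iff _ hinj]
    exact hb0
  have hb' : P'.map (algebraMap O F0) =
      C (algebraMap O F0 (b : O)) * R := by
    rw [hb, ← Polynomial.smul_eq_C_mul]
    ext i
    simp [Algebra.smul_def]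
  have hP'0 : P' ≠ 0 := by
    intro h0
    rw [h0, Polynomial.map_zero] at hb'
    exact mul_ne_zero (C_ne_zero.mpr hba) hR hb'.symm
  obtain ⟨e, he⟩ := hcl P'.contentIdeal
  have hcp := content_pow hGAU P' n
  rw [he] at hcp
  have hPn : P' ^ n ≠ 0 := pow_ne_zero _ hP'0
  have he0 : e ≠ 0 := by
    rintro rfl
    apply hPn
    rw [← contentIdeal_eq_bot_iff, hcp]
    simp
  have hdvd : C e ∣ P' ^ n := by
    rw [C_dvd_iff_dvd_coeff]
    intro i
    have := coeff_mem_contentIdeal (P' ^ n) i
    rw [hcp, Ideal.mem_span_singleton] at this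
    exact this
  obtain ⟨P, hP⟩ := hdvd
  have hct : P.contentIdeal = ⊤ := by
    have h1 := hcp
    rw [hP, hGAU, contentIdeal_C] at h1
    have h2 : Ideal.span {e} * P.contentIdeal = Ideal.span {e} * ⊤ := by
      rw [h1, Ideal.mul_top]
    exact (Ideal.span_singleton_mul_right_inj he0).mp h2
  have hea : algebraMap O F0 e ≠ 0 := by
    rw [Ne, map_eq_zero_iff _ hinj]
    exact he0
  refine ⟨P, hct, ?_, algebraMap O F0 (b : O) ^ n / algebraMap O F0 e,
    div_ne_zero (pow_ne_zero _ hba) hea, ?_⟩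
  · rintro rfl
    rw [mul_zero] at hP
    exact hPn hP
  · have h1 : C (algebraMap O F0 e) * P.map (algebraMap O F0) =
        (C (algebraMap O F0 (b : O)) * R) ^ n := by
      rw [← hb', ← Polynomial.map_pow, hP, Polynomial.map_mul, map_C]
    have h2 : P.map (algebraMap O F0) =
        C (algebraMap O F0 e)⁻¹ *
        (C (algebraMap O F0 e) * P.map (algebraMap O F0)) := by
      rw [← mul_assoc, ← C_mul, inv_mul_cancel₀ hea, C_1, one_mul]
    rw [h2, h1, mul_pow, ← C_pow, ← mul_assoc, ← C_mul, div_eq_inv_mul]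

private theorem resP (hD : Disc O) {n : ℕ} (hn : 0 < n) (R : F0[X])
    (hR : Irreducible R) (P : (↥O)[X]) (hP : P ≠ 0) (u : F0) (hu : u ≠ 0)
    (hPR : P.map (algebraMap O F0) = C u * R ^ n) :
    ResP O (R.map (io O F0)).roots ((toC P).logMahlerMeasure / n) := by
  intro Q β1 N H g h1 h2 hQ hH
  set S := (R.map (io O F0)).roots with hS
  have hiou : io O F0 u ≠ 0 := by
    rw [Ne, map_eq_zero_iff _ (io O F0).injective]
    exact hu
  have htC : toC P = C (io O F0 u) * (R.map (io O F0)) ^ n := by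
    rw [← map_io F0, hPR, Polynomial.map_mul, map_C, Polynomial.map_pow]
  have hroots : rts P = n • S := by
    unfold rts
    rw [htC, roots_C_mul _ hiou, roots_pow]
  have hdegP : (toC P).natDegree = P.natDegree := natDegree_map_eq_of_injective inj P
  have hdegQ : (toC Q).natDegree = Q.natDegree := natDegree_map_eq_of_injective inj Q
  have hr : ((resultant P Q : O) : ℂ) = (toC P).leadingCoeff ^ Q.natDegree *
      ((rts P).map (fun β => ev Q β)).prod := by
    have e1 := resultant_eq_prod_eval (toC P) (toC Q) Q.natDegree hdegQ.le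
      (IsAlgClosed.splits (toC P))
    rw [hdegP] at e1
    unfold toC at e1
    rw [resultant_map_map] at e1
    exact e1
  have hcop : IsCoprime R (Q.map (algebraMap O F0)) := by
    rw [hR.coprime_iff_not_dvd]
    rintro ⟨T, hT⟩
    apply h2
    unfold ev
    rw [← map_io F0, hT, Polynomial.map_mul, eval_mul]
    have : eval β1 (R.map (io O F0)) = 0 := (mem_roots'.mp h1).2
    rw [this, zero_mul]
  have hQne : ∀ β ∈ S, ev Q β ≠ 0 := by
    intro β hβ h0
    obtain ⟨a, b, hab⟩ := hcop
    have h3 := congrArg (fun T => eval β (T.map (io O F0))) hab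
    simp only [Polynomial.map_add, Polynomial.map_mul, eval_add, eval_mul, Polynomial.map_one,
      eval_one, map_io F0] at h3
    have h4 : eval β (R.map (io O F0)) = 0 := (mem_roots'.mp hβ).2
    unfold ev at h0
    rw [h4, h0, mul_zero, mul_zero, add_zero] at h3
    exact zero_ne_one h3
  have hprod : ((rts P).map (fun β => ev Q β)).prod = ((S.map (fun β => ev Q β)).prod) ^ n := by
    rw [hroots, Multiset.map_nsmul, Multiset.prod_nsmul]
  have hpne : (S.map (fun β => ev Q β)).prod ≠ 0 := by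
    rw [Ne, Multiset.prod_eq_zero_iff, Multiset.mem_map]
    rintro ⟨β, hβ, h0⟩
    exact hQne β hβ h0
  have hlc := lc_ge hD hP
  have hres0 : resultant P Q ≠ 0 := by
    intro h0
    rw [h0, hprod] at hr
    have : (toC P).leadingCoeff ^ Q.natDegree * ((S.map (fun β => ev Q β)).prod) ^ n ≠ 0 := by
      refine mul_ne_zero (pow_ne_zero _ ?_) (pow_ne_zero _ hpne)
      intro h0
      rw [h0, norm_zero] at hlc
      linarith
    exact this (by rw [← hr]; simp)
  have hge := hD _ hres0
  rw [hr, hprod, norm_mul, norm_pow, norm_pow] at hge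
  have hp := res_prod N H g Q S hH
  have hlcN : ‖(toC P).leadingCoeff‖ ^ Q.natDegree ≤
      Real.exp (N * Real.log ‖(toC P).leadingCoeff‖) := by
    rw [mul_comm, Real.exp_mul, Real.exp_log (by linarith), Real.rpow_natCast]
    exact pow_le_pow_right₀ hlc hQ
  have hpn : ‖(S.map (fun β => ev Q β)).prod‖ ^ n ≤ Real.exp (n * ((Multiset.card S) * H +
      N * (S.map (fun β => Real.log (max 1 ‖β‖))).sum - (S.map g).sum)) := by
    rw [Real.exp_nat_mul]
    exact pow_le_pow_left₀ (norm_nonneg _) hp n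
  have h3 : (1:ℝ) ≤ Real.exp (N * Real.log ‖(toC P).leadingCoeff‖ +
      n * ((Multiset.card S) * H +
      N * (S.map (fun β => Real.log (max 1 ‖β‖))).sum - (S.map g).sum)) := by
    rw [Real.exp_add]
    exact hge.trans (mul_le_mul hlcN hpn (by positivity) (Real.exp_pos _).le)
  have h4 : (0:ℝ) ≤ N * Real.log ‖(toC P).leadingCoeff‖ + n * ((Multiset.card S) * H +
      N * (S.map (fun β => Real.log (max 1 ‖β‖))).sum - (S.map g).sum) := by
    exact Real.exp_le_exp.mp (le_of_eq_of_le Real.exp_zero h3)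
  have hM1 : (toC P).logMahlerMeasure = Real.log ‖(toC P).leadingCoeff‖ +
      n * (S.map (fun β => Real.log (max 1 ‖β‖))).sum := by
    rw [logMahlerMeasure_eq_log_leadingCoeff_add_sum_log_roots]
    have : (toC P).roots = n • S := hroots
    rw [this, Multiset.map_nsmul, Multiset.sum_nsmul, nsmul_eq_mul]
    simp only [Real.posLog_eq_log_max_one (norm_nonneg _)]
  have hn0 : (0 : ℝ) < n := by exact_mod_cast hn
  have h5 : n * (S.map g).sum ≤ N * (toC P).logMahlerMeasure + n * ((Multiset.card S) * H) := by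
    rw [hM1]
    linarith
  have h6 : (S.map g).sum ≤ (N * (toC P).logMahlerMeasure + n * ((Multiset.card S) * H)) / n := by
    rw [le_div_iff₀ hn0]
    linarith
  refine h6.trans (le_of_eq ?_)
  field_simp

private theorem prods (hGAU : ∀ f g : (↥O)[X],
    (f * g).contentIdeal = f.contentIdeal * g.contentIdeal) {n : ℕ}
    (p : F0[X] → (↥O)[X]) (u : F0[X] → F0)
    (s : Multiset F0[X])
    (hs : ∀ R ∈ s, R ≠ 0 ∧ (p R).contentIdeal = ⊤ ∧ p R ≠ 0 ∧ u R ≠ 0 ∧
      (p R).map (algebraMap O F0) = C (u R) * R ^ n) :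
    s.prod ≠ 0 ∧ (s.map p).prod.contentIdeal = ⊤ ∧ (s.map p).prod ≠ 0 ∧ (s.map u).prod ≠ 0 ∧
      (s.map p).prod.map (algebraMap O F0) = C ((s.map u).prod) * s.prod ^ n ∧
      (toC (s.map p).prod).logMahlerMeasure =
        (s.map fun R => (toC (p R)).logMahlerMeasure).sum ∧
      (s.prod.map (io O F0)).roots = (s.map fun R => (R.map (io O F0)).roots).sum := by
  induction s using Multiset.induction_on with
  | empty => simp [toC]
  | cons R s ih =>
    obtain ⟨h0, h1, h2, h3, h4, h5, h6⟩ := ih fun Q hQ => hs Q (Multiset.mem_cons_of_mem hQ)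
    obtain ⟨g0, g1, g2, g3, g4⟩ := hs R (Multiset.mem_cons_self R s)
    simp only [Multiset.map_cons, Multiset.prod_cons, Multiset.sum_cons]
    refine ⟨mul_ne_zero g0 h0, ?_, mul_ne_zero g2 h2, mul_ne_zero g3 h3, ?_, ?_, ?_⟩
    · rw [hGAU, g1, h1, Ideal.mul_top]
    · rw [Polynomial.map_mul, g4, h4, C_mul, mul_pow]
      ring
    · rw [toC_mul, logMahlerMeasure_mul_eq_add_logMahlerMeasure
        (mul_ne_zero (toC_ne g2) (toC_ne h2)), h5]
    · rw [Polynomial.map_mul, roots_mul, h6]
      refine mul_ne_zero ?_ ?_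
      · rw [Ne, Polynomial.map_eq_zero_iff (io O F0).injective]
        exact g0
      · rw [Ne, Polynomial.map_eq_zero_iff (io O F0).injective]
        exact h0

private theorem logM_pow {D : (↥O)[X]} (hD0 : D ≠ 0) (n : ℕ) :
    (toC (D ^ n)).logMahlerMeasure = n * (toC D).logMahlerMeasure := by
  induction n with
  | zero => simp [toC]
  | succ m ih =>
    rw [pow_succ, toC_mul, logMahlerMeasure_mul_eq_add_logMahlerMeasure
      (mul_ne_zero (toC_ne (pow_ne_zero _ hD0)) (toC_ne hD0)), ih]
    push_cast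
    ring

theorem gen (F0 : Type) [Field F0] [Algebra O F0] [IsFractionRing O F0] (hD : Disc O) (hGAU : ∀ f g : (↥O)[X],
    (f * g).contentIdeal = f.contentIdeal * g.contentIdeal) {n : ℕ} (hn : 0 < n)
    (hcl : ∀ I : Ideal O, ∃ e : O, I ^ n = Ideal.span {e}) : FR O := by
  intro D hD0
  have hinj : Function.Injective (algebraMap O F0) :=
    IsFractionRing.injective O F0
  have hex : ∀ R : F0[X], ∃ pu : (↥O)[X] × F0, R ≠ 0 →
      pu.1.contentIdeal = ⊤ ∧ pu.1 ≠ 0 ∧ pu.2 ≠ 0 ∧
      pu.1.map (algebraMap O F0) = C pu.2 * R ^ n := by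
    intro R
    by_cases hR : R = 0
    · exact ⟨(0, 0), fun h => absurd hR h⟩
    · obtain ⟨P, a1, a2, u, a3, a4⟩ := prim hGAU hcl R hR
      exact ⟨(P, u), fun _ => ⟨a1, a2, a3, a4⟩⟩
  choose pu hpu using hex
  have hDm : D.map (algebraMap O F0) ≠ 0 := by
    rw [Ne, Polynomial.map_eq_zero_iff hinj]
    exact hD0
  obtain ⟨s, hs⟩ : ∃ s : Multiset F0[X],
    s = UniqueFactorizationMonoid.factors (D.map (algebraMap O F0)) := ⟨_, rfl⟩
  have hirr : ∀ R ∈ s, Irreducible R := by
    intro R hR
    rw [hs] at hR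
    exact UniqueFactorizationMonoid.irreducible_of_factor R hR
  have hass : Associated s.prod (D.map (algebraMap O F0)) := by
    rw [hs]
    exact UniqueFactorizationMonoid.factors_prod hDm
  obtain ⟨v, hv⟩ := hass
  obtain ⟨c, hc, hcv⟩ := Polynomial.isUnit_iff.1 v.isUnit
  have hc0 : c ≠ 0 := hc.ne_zero
  rw [← hcv] at hv
  obtain ⟨h0, h1, h2, h3, h4, h5, h6⟩ := prods (F0 := F0) hGAU (n := n) (fun R => (pu R).1)
    (fun R => (pu R).2) s fun R hR => ⟨(hirr R hR).ne_zero, hpu R (hirr R hR).ne_zero⟩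
  set T := (s.map fun R => (pu R).1).prod with hT
  set w := (s.map fun R => (pu R).2).prod with hw
  obtain ⟨x, y, hy, hxy⟩ := IsFractionRing.div_surjective (A := O) (c ^ n / w)
  have hy0 : y ≠ 0 := nonZeroDivisors.ne_zero hy
  have hya : algebraMap O F0 y ≠ 0 := by
    rw [Ne, map_eq_zero_iff _ hinj]
    exact hy0
  have hmain : C y * D ^ n = C x * T := by
    apply Polynomial.map_injective _ hinj
    rw [Polynomial.map_mul, Polynomial.map_mul, map_C, map_C, Polynomial.map_pow, ← hv, h4]
    have e1 : algebraMap O F0 y * c ^ n = algebraMap O F0 x * w := by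
      field_simp at hxy
      linear_combination -hxy
    have e2 : C (algebraMap O F0 y) * (C c) ^ n =
        (C (algebraMap O F0 x) * C w : F0[X]) := by
      rw [← C_pow, ← C_mul, ← C_mul, e1]
    rw [mul_pow]
    linear_combination (s.prod) ^ n * e2
  have hdvd : y ∣ x := by
    have e1 := congrArg (fun P : (↥O)[X] => P.contentIdeal) hmain
    rw [hGAU, hGAU, contentIdeal_C, contentIdeal_C, h1, Ideal.mul_top] at e1
    have e2 : (Ideal.span {x} : Ideal O) ≤ Ideal.span {y} := by
      rw [← e1]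
      exact Ideal.mul_le_left (I := (Ideal.span {y} : Ideal O))
    exact Ideal.span_singleton_le_span_singleton.mp e2
  obtain ⟨z, hz⟩ := hdvd
  have hDn : D ^ n = C z * T := by
    have e1 : C y * D ^ n = C y * (C z * T) := by
      rw [hmain, hz, C_mul, mul_assoc]
    exact mul_left_cancel₀ (C_ne_zero.mpr hy0) e1
  have hz0 : z ≠ 0 := by
    rintro rfl
    rw [C_0, zero_mul] at hDn
    exact pow_ne_zero _ hD0 hDn
  have hzC : toC (C z) = C (z : ℂ) := by
    unfold toC
    rw [map_C]
    rfl
  have hn0 : (0 : ℝ) < n := by exact_mod_cast hn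
  have hlog : (n : ℝ) * (toC D).logMahlerMeasure = Real.log ‖(z : ℂ)‖ +
      (toC T).logMahlerMeasure := by
    have e1 : (toC (D ^ n)).logMahlerMeasure = n * (toC D).logMahlerMeasure := by
      exact logM_pow hD0 n
    rw [← e1, hDn, toC_mul, hzC, logMahlerMeasure_mul_eq_add_logMahlerMeasure
      (mul_ne_zero (hzC ▸ toC_ne (C_ne_zero.mpr hz0)) (toC_ne h2)),
      logMahlerMeasure_const]
  have hzl : 0 ≤ Real.log ‖(z : ℂ)‖ := Real.log_nonneg (hD z hz0)
  refine ⟨s.map fun R => ((R.map (io O F0)).roots, (toC (pu R).1).logMahlerMeasure / n), ?_, ?_, ?_⟩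
  · rw [Multiset.map_map]
    have e1 : rts D = (s.prod.map (io O F0)).roots := by
      unfold rts
      rw [← map_io F0, ← hv, Polynomial.map_mul, map_C, mul_comm, roots_C_mul]
      rw [Ne, map_eq_zero_iff _ (io O F0).injective]
      exact hc0
    rw [e1, h6]
    rfl
  · rw [Multiset.map_map]
    have e1 : (s.map (Prod.snd ∘ fun R => ((R.map (io O F0)).roots,
        (toC (pu R).1).logMahlerMeasure / (n : ℝ)))).sum = (toC T).logMahlerMeasure / n := by
      rw [h5]
      have : (Prod.snd ∘ fun R : F0[X] => ((R.map (io O F0)).roots,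
        (toC (pu R).1).logMahlerMeasure / (n : ℝ))) =
          fun R => (toC (pu R).1).logMahlerMeasure / (n : ℝ) := rfl
      rw [this, Multiset.sum_map_div]
    rw [e1, div_le_iff₀ hn0]
    have := logM_le hD0
    nlinarith
  · intro A hA
    rw [Multiset.mem_map] at hA
    obtain ⟨R, hR, rfl⟩ := hA
    have hirrR := hirr R hR
    obtain ⟨a1, a2, a3, a4⟩ := hpu R hirrR.ne_zero
    exact ⟨div_nonneg (logM_nonneg hD a2) hn0.le, resP hD hn R hirrR _ a2 _ a3 a4⟩

end

theorem pf_FRK (hGAU : T_GAU) (hDDK : T_DDK) (hDSK : T_DSK) (_hKKK : T_KKK) : T_FRK := by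
  intro K hK
  obtain ⟨hded, n, hn, hcl⟩ := hDDK K hK
  have := hded
  exact gen (FractionRing (OI K)) (hDSK K hK) (fun f g => hGAU (OI K) f g) hn hcl

end Pool.Agent.H90.EI.FRK
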