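import Pool.Agent.H51.EI.TargetsC

set_option autoImplicit false

open Polynomial Finset

namespace Pool.Agent.H90.EI.PARX

open Pool.Agent.H51.EI

theorem ev_lin {O : Subring ℂ} (P Q : (↥O)[X]) (m n : ℤ) (x : ℂ) :
    ev (C (m : O) * P + C (n : O) * Q) x = (m : ℂ) * ev P x + n * ev Q x := by
  simp [ev, toC]

theorem ev_mul {O : Subring ℂ} (P Q : (↥O)[X]) (x : ℂ) : ev (P * Q) x = ev P x * ev Q x := by
  simp [ev, toC]

theorem coeff_le_plen {O : Subring ℂ} (P : (↥O)[X]) (i : ℕ) :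
    ‖(P.coeff i : ℂ)‖ ≤ plen P := by
  unfold plen
  by_cases hi : i ∈ P.support
  · exact Finset.single_le_sum (f := fun i => ‖(P.coeff i : ℂ)‖)
      (fun _ _ => norm_nonneg _) hi
  · rw [notMem_support_iff.mp hi]
    simp only [ZeroMemClass.coe_zero, norm_zero]
    exact Finset.sum_nonneg fun _ _ => norm_nonneg _

theorem trans {O : Subring ℂ} {a b : O} (hMEAS : T_MEAS) (hD : Disc O) (hR : RP O) (ha : a ≠ 0)
    (hb : b ≠ 0) (P : (↥O)[X]) (hP : P ≠ 0) : ev P (Complex.exp ((a : ℂ) / (b : ℂ))) ≠ 0 := by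
  obtain ⟨c, hc, h⟩ := hMEAS O a b P.natDegree hD hR ha hb
  have h1 := h P (max 1 (plen P)) hP le_rfl (le_max_left _ _)
    (fun i => (coeff_le_plen P i).trans (le_max_right _ _))
  intro h0
  rw [h0, norm_zero] at h1
  exact absurd (Real.exp_pos _) (not_lt.mpr h1)

theorem lowb {O : Subring ℂ} {a b : O} (hMEAS : T_MEAS) (hD : Disc O) (hR : RP O) (ha : a ≠ 0)
    (hb : b ≠ 0) (P Q : (↥O)[X])
    (hne : ∀ m n : ℤ, (m ≠ 0 ∨ n ≠ 0) → (m : ℂ) * ev P (Complex.exp ((a : ℂ) / (b : ℂ))) +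
      n * ev Q (Complex.exp ((a : ℂ) / (b : ℂ))) ≠ 0) :
    ∃ C : ℝ, 0 ≤ C ∧ ∀ m n : ℤ, (m ≠ 0 ∨ n ≠ 0) →
    Real.exp (-(C * (|(m : ℝ)| + |(n : ℝ)|) * Real.log (|(m : ℝ)| + |(n : ℝ)| + 1))) ≤
      ‖(m : ℂ) * ev P (Complex.exp ((a : ℂ) / (b : ℂ))) +
      n * ev Q (Complex.exp ((a : ℂ) / (b : ℂ)))‖ := by
  obtain ⟨c, hc, h⟩ := hMEAS O a b (max P.natDegree Q.natDegree) hD hR ha hb
  obtain ⟨c1, hc1⟩ := exists_nat_ge (plen P + plen Q)
  have hp0 : 0 ≤ plen P := by unfold plen; positivity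
  have hq0 : 0 ≤ plen Q := by unfold plen; positivity
  set c0 : ℕ := c1 + 1 with hc0
  have hc01 : (1 : ℝ) ≤ c0 := by rw [hc0]; push_cast; linarith [Nat.cast_nonneg (α := ℝ) c1]
  have hPc : ∀ i, ‖(P.coeff i : ℂ)‖ ≤ c0 := fun i => by
    have := coeff_le_plen P i
    rw [hc0]; push_cast; linarith
  have hQc : ∀ i, ‖(Q.coeff i : ℂ)‖ ≤ c0 := fun i => by
    have := coeff_le_plen Q i
    rw [hc0]; push_cast; linarith
  refine ⟨c * c0 ^ 2, by positivity, fun m n hmn => ?_⟩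
  set s : ℝ := |(m : ℝ)| + |(n : ℝ)| with hs
  have hs1 : 1 ≤ s := by
    rcases hmn with hm | hn
    · have h1 : (1 : ℤ) ≤ |m| := Int.one_le_abs hm
      have h2 : (1 : ℝ) ≤ |(m : ℝ)| := by exact_mod_cast h1
      have := abs_nonneg (n : ℝ)
      linarith
    · have h1 : (1 : ℤ) ≤ |n| := Int.one_le_abs hn
      have h2 : (1 : ℝ) ≤ |(n : ℝ)| := by exact_mod_cast h1
      have := abs_nonneg (m : ℝ)
      linarith
  have hev := ev_lin P Q m n (Complex.exp ((a : ℂ) / (b : ℂ)))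
  have hR0 : C (m : O) * P + C (n : O) * Q ≠ 0 := by
    intro h0
    apply hne m n hmn
    rw [← hev, h0]
    simp [ev, toC]
  have hdeg : (C (m : O) * P + C (n : O) * Q).natDegree ≤ max P.natDegree Q.natDegree := by
    refine (natDegree_add_le _ _).trans (max_le_max ?_ ?_)
    · exact natDegree_C_mul_le _ _
    · exact natDegree_C_mul_le _ _
  have hcoef : ∀ i, ‖((C (m : O) * P + C (n : O) * Q).coeff i : ℂ)‖ ≤ c0 * s := by
    intro i
    have e1 : ((C (m : O) * P + C (n : O) * Q).coeff i : ℂ) =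
        (m : ℂ) * (P.coeff i : ℂ) + (n : ℂ) * (Q.coeff i : ℂ) := by
      rw [coeff_add, coeff_C_mul, coeff_C_mul]
      push_cast
      rfl
    rw [e1]
    calc ‖(m : ℂ) * (P.coeff i : ℂ) + (n : ℂ) * (Q.coeff i : ℂ)‖
        ≤ ‖(m : ℂ) * (P.coeff i : ℂ)‖ + ‖(n : ℂ) * (Q.coeff i : ℂ)‖ := norm_add_le _ _
      _ = |(m : ℝ)| * ‖(P.coeff i : ℂ)‖ + |(n : ℝ)| * ‖(Q.coeff i : ℂ)‖ := by
          rw [norm_mul, norm_mul, Complex.norm_intCast, Complex.norm_intCast]
      _ ≤ |(m : ℝ)| * c0 + |(n : ℝ)| * c0 := by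
          gcongr
          · exact hPc i
          · exact hQc i
      _ = c0 * s := by rw [hs]; ring
  have h1 := h _ (c0 * s) hR0 hdeg (by nlinarith) hcoef
  rw [hev] at h1
  refine le_trans ?_ h1
  rw [Real.exp_le_exp, neg_le_neg_iff]
  have hlog : Real.log (c0 * s + 1) ≤ c0 * Real.log (s + 1) := by
    rw [← Real.log_pow]
    refine Real.log_le_log (by nlinarith) ?_
    have := one_add_mul_le_pow (show (-2 : ℝ) ≤ s by linarith) c0
    calc (c0 : ℝ) * s + 1 = 1 + c0 * s := by ring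
      _ ≤ (1 + s) ^ c0 := this
      _ = (s + 1) ^ c0 := by rw [add_comm]
  have hcs : 0 ≤ c * (c0 * s) := by positivity
  calc c * (c0 * s) * Real.log (c0 * s + 1) ≤ c * (c0 * s) * (c0 * Real.log (s + 1)) :=
        mul_le_mul_of_nonneg_left hlog hcs
    _ = c * (c0 : ℝ) ^ 2 * s * Real.log (s + 1) := by ring

theorem pow_notMem {O : Subring ℂ} {X0 : ℂ} (hFRC : T_FRC)
    (htr : ∀ P : (↥O)[X], P ≠ 0 → ev P X0 ≠ 0) (n : ℕ) (hn : n ≠ 0) : X0 ^ n ∉ KK O := by
  intro hmem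
  obtain ⟨p, q, hq, hpq⟩ := hFRC O _ hmem
  have hq' : (q : ℂ) ≠ 0 := by simpa using hq
  refine htr (C q * X ^ n - C p) ?_ ?_
  · intro h0
    have h1 := congrArg (fun P => P.coeff n) h0
    simp only [coeff_sub, coeff_C_mul, coeff_X_pow, coeff_C, if_neg hn, coeff_zero] at h1
    simp at h1
    exact hq h1
  · simp only [ev, toC, Polynomial.map_sub, Polynomial.map_mul, Polynomial.map_pow, map_C, map_X,
      eval_sub, eval_mul, eval_C, eval_pow, eval_X, Subring.subtype_apply]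
    rw [hpq]
    field_simp
    simp

theorem zpow_notMem {O : Subring ℂ} {X0 : ℂ} (hFRC : T_FRC)
    (htr : ∀ P : (↥O)[X], P ≠ 0 → ev P X0 ≠ 0) (m : ℤ) (hm : m ≠ 0) : X0 ^ m ∉ KK O := by
  intro hmem
  rcases Int.lt_or_gt_of_ne hm with h | h
  · have h1 : X0 ^ (-m) ∈ KK O := by
      rw [zpow_neg]
      exact (KK O).inv_mem hmem
    have h2 : -m = ((-m).toNat : ℤ) := (Int.toNat_of_nonneg (by omega)).symm
    rw [h2, zpow_natCast] at h1
    exact pow_notMem hFRC htr _ (by omega) h1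
  · have h2 : m = (m.toNat : ℤ) := (Int.toNat_of_nonneg (by omega)).symm
    rw [h2, zpow_natCast] at hmem
    exact pow_notMem hFRC htr _ (by omega) hmem

/-- no relation -/
theorem norel {O : Subring ℂ} {t w1 w2 : ℂ} (hFRC : T_FRC)
    (htr : ∀ P : (↥O)[X], P ≠ 0 → ev P (Complex.exp t) ≠ 0) (h1 : Complex.exp w1 ∈ KK O)
    (h2 : Complex.exp w2 ∈ KK O) (hw2 : w2 ≠ 0) (m n : ℤ) (hmn : m ≠ 0 ∨ n ≠ 0) :
    (m : ℂ) * (t + w1) + n * w2 ≠ 0 := by
  intro h0
  have hmem : Complex.exp t ^ m ∈ KK O := by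
    have e1 : Complex.exp t ^ m = (Complex.exp w1 ^ m)⁻¹ * (Complex.exp w2 ^ n)⁻¹ := by
      rw [← Complex.exp_int_mul, ← Complex.exp_int_mul, ← Complex.exp_int_mul, ← Complex.exp_neg,
        ← Complex.exp_neg, ← Complex.exp_add]
      congr 1
      linear_combination h0
    rw [e1]
    exact (KK O).mul_mem ((KK O).inv_mem (zpow_mem h1 m)) ((KK O).inv_mem (zpow_mem h2 n))
  by_cases hm : m = 0
  · have hn : n ≠ 0 := by
      rcases hmn with h | h
      · exact absurd hm h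
      · exact h
    rw [hm] at h0
    simp only [Int.cast_zero, zero_mul, zero_add, mul_eq_zero, Int.cast_eq_zero] at h0
    rcases h0 with h | h
    · exact hn h
    · exact hw2 h
  · exact zpow_notMem hFRC htr m hm hmem

theorem mono_bound {C1 C : ℝ} (h : C1 ≤ C) (m n : ℤ) :
    Real.exp (-(C * (|(m : ℝ)| + |(n : ℝ)|) * Real.log (|(m : ℝ)| + |(n : ℝ)| + 1))) ≤
    Real.exp (-(C1 * (|(m : ℝ)| + |(n : ℝ)|) * Real.log (|(m : ℝ)| + |(n : ℝ)| + 1))) := by
  rw [Real.exp_le_exp, neg_le_neg_iff]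
  have h0 : 0 ≤ |(m : ℝ)| + |(n : ℝ)| := by positivity
  have h1 : 0 ≤ Real.log (|(m : ℝ)| + |(n : ℝ)| + 1) := Real.log_nonneg (by linarith)
  gcongr

theorem pf_PARX (hMEAS : T_MEAS) (hRAT : T_RAT) (hFRC : T_FRC) : T_PARX := by
  intro O t w hD hR ht ht0 hw hew hdet
  obtain ⟨a, b, hb, htab⟩ := hFRC O t ht
  have hb' : (b : ℂ) ≠ 0 := by simpa using hb
  have ha : a ≠ 0 := by
    rintro rfl
    apply ht0
    rw [htab]
    simp
  have htr : ∀ P : (↥O)[X], P ≠ 0 → ev P (Complex.exp t) ≠ 0 := by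
    intro P hP
    rw [htab]
    exact trans hMEAS hD hR ha hb P hP
  have hlow : ∀ P Q : (↥O)[X],
      (∀ m n : ℤ, (m ≠ 0 ∨ n ≠ 0) → (m : ℂ) * ev P (Complex.exp t) +
        n * ev Q (Complex.exp t) ≠ 0) →
      ∃ C : ℝ, 0 ≤ C ∧ ∀ m n : ℤ, (m ≠ 0 ∨ n ≠ 0) →
      Real.exp (-(C * (|(m : ℝ)| + |(n : ℝ)|) * Real.log (|(m : ℝ)| + |(n : ℝ)| + 1))) ≤
        ‖(m : ℂ) * ev P (Complex.exp t) + n * ev Q (Complex.exp t)‖ := by
    intro P Q h
    rw [htab] at h ⊢
    exact lowb hMEAS hD hR ha hb P Q h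
  have hKle : KK O ≤ KX O (Complex.exp t) := Subfield.closure_mono Set.subset_union_left
  have htX : t ∈ KX O (Complex.exp t) := hKle ht
  have hnz : ∀ i, t + w i i ≠ 0 := by
    intro i h0
    have h1 := hew i i
    have h2 : w i i = -t := by linear_combination h0
    rw [h2, Complex.exp_neg] at h1
    have h3 := (KK O).inv_mem h1
    rw [inv_inv] at h3
    exact pow_notMem hFRC htr 1 one_ne_zero (by simpa using h3)
  have h00 := hnz 0
  have h11 := hnz 1
  have hprod : w 0 1 * w 1 0 ≠ 0 := by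
    rw [← hdet]
    exact mul_ne_zero h00 h11
  have h01 : w 0 1 ≠ 0 := left_ne_zero_of_mul hprod
  have h10 : w 1 0 ≠ 0 := right_ne_zero_of_mul hprod
  -- the polynomials
  obtain ⟨P1, Q1, hQ1, hxi⟩ := hRAT O (Complex.exp t) (w 1 0 / (t + w 0 0))
    ((KX O (Complex.exp t)).div_mem (hw 1 0) ((KX O (Complex.exp t)).add_mem htX (hw 0 0)))
  obtain ⟨P2, Q2, hQ2, hT00⟩ := hRAT O (Complex.exp t) (t + w 0 0)
    ((KX O (Complex.exp t)).add_mem htX (hw 0 0))
  obtain ⟨P3, Q3, hQ3, hT01⟩ := hRAT O (Complex.exp t) (w 0 1) (hw 0 1)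
  have hxne : ∀ m n : ℤ, (m ≠ 0 ∨ n ≠ 0) → (m : ℂ) * ev Q1 (Complex.exp t) +
        n * ev P1 (Complex.exp t) ≠ 0 := by
    intro m n hmn h0
    refine norel hFRC htr (hew 0 0) (hew 1 0) h10 m n hmn ?_
    have e1 : ev P1 (Complex.exp t) = w 1 0 / (t + w 0 0) * ev Q1 (Complex.exp t) := by
      rw [hxi]; field_simp
    rw [e1] at h0
    have h2 : ev Q1 (Complex.exp t) * ((m : ℂ) * (t + w 0 0) + n * w 1 0) = 0 := by
      field_simp at h0
      linear_combination h0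
    rcases mul_eq_zero.mp h2 with h | h
    · exact absurd h hQ1
    · exact h
  have hyne : ∀ m n : ℤ, (m ≠ 0 ∨ n ≠ 0) → (m : ℂ) * ev (P2 * Q3) (Complex.exp t) +
        n * ev (P3 * Q2) (Complex.exp t) ≠ 0 := by
    intro m n hmn h0
    refine norel hFRC htr (hew 0 0) (hew 0 1) h01 m n hmn ?_
    rw [ev_mul, ev_mul] at h0
    have e1 : ev P2 (Complex.exp t) = (t + w 0 0) * ev Q2 (Complex.exp t) := by
      rw [hT00]; field_simp
    have e2 : ev P3 (Complex.exp t) = w 0 1 * ev Q3 (Complex.exp t) := by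
      rw [hT01]; field_simp
    rw [e1, e2] at h0
    have h2 : (ev Q2 (Complex.exp t) * ev Q3 (Complex.exp t)) *
        ((m : ℂ) * (t + w 0 0) + n * w 0 1) = 0 := by
      linear_combination h0
    rcases mul_eq_zero.mp h2 with h | h
    · exact absurd h (mul_ne_zero hQ2 hQ3)
    · exact h
  obtain ⟨Cx, hCx, hbx⟩ := hlow _ _ hxne
  obtain ⟨Cy, hCy, hby⟩ := hlow _ _ hyne
  have huv : ∀ i j, ∃ p : O × O, p.1 ≠ 0 ∧ p.2 ≠ 0 ∧ Complex.exp (w i j) = (p.1 : ℂ) / (p.2 : ℂ) := by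
    intro i j
    obtain ⟨p, q, hq, hpq⟩ := hFRC O _ (hew i j)
    refine ⟨(p, q), ?_, hq, hpq⟩
    rintro rfl
    simp at hpq
  choose uv huv1 huv2 huv3 using huv
  set r : ℕ := Q1.natDegree + P1.natDegree + (P2 * Q3).natDegree + (P3 * Q2).natDegree +
    (Q2 * Q3).natDegree + 1 with hr
  have hr4 : r ≤ r ^ 4 := Nat.le_self_pow (by norm_num) r
  refine ⟨{
    r := r
    x := ![Q1, P1]
    y := ![P2 * Q3, P3 * Q2]
    A := Q2 * Q3
    B := Q1
    u := fun i j => (uv i j).1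
    v := fun i j => (uv i j).2
    C := max Cx Cy
    hr := by omega
    hC := le_max_of_le_left hCx
    hdx := by
      intro i
      fin_cases i
      · show Q1.natDegree ≤ r ^ 4
        omega
      · show P1.natDegree ≤ r ^ 4
        omega
    hdy := by
      intro i
      fin_cases i
      · show (P2 * Q3).natDegree ≤ r ^ 4
        omega
      · show (P3 * Q2).natDegree ≤ r ^ 4
        omega
    hdA := by omega
    hdB := by omega
    hA := by rw [ev_mul]; exact mul_ne_zero hQ2 hQ3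
    hB := hQ1
    hX := Complex.exp_ne_zero _
    hu := huv1
    hv := huv2
    hsx := fun m n hmn => (mono_bound (le_max_left Cx Cy) m n).trans (hbx m n hmn)
    hsy := fun m n hmn => (mono_bound (le_max_right Cx Cy) m n).trans (hby m n hmn)
    hval := ?_ }⟩
  have e1 : ev P1 (Complex.exp t) = w 1 0 / (t + w 0 0) * ev Q1 (Complex.exp t) := by
    rw [hxi]; field_simp
  have e2 : ev P2 (Complex.exp t) = (t + w 0 0) * ev Q2 (Complex.exp t) := by
    rw [hT00]; field_simp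
  have e3 : ev P3 (Complex.exp t) = w 0 1 * ev Q3 (Complex.exp t) := by
    rw [hT01]; field_simp
  intro i j
  rw [← huv3]
  fin_cases i <;> fin_cases j
  · show Complex.exp (ev Q1 (Complex.exp t) * ev (P2 * Q3) (Complex.exp t) /
      (ev (Q2 * Q3) (Complex.exp t) * ev Q1 (Complex.exp t))) = Complex.exp t ^ 1 *
        Complex.exp (w 0 0)
    rw [ev_mul, ev_mul, e2, pow_one, ← Complex.exp_add]
    congr 1
    field_simp
  · show Complex.exp (ev Q1 (Complex.exp t) * ev (P3 * Q2) (Complex.exp t) /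
      (ev (Q2 * Q3) (Complex.exp t) * ev Q1 (Complex.exp t))) = Complex.exp t ^ 0 *
        Complex.exp (w 0 1)
    rw [ev_mul, ev_mul, e3, pow_zero, one_mul]
    congr 1
    field_simp
  · show Complex.exp (ev P1 (Complex.exp t) * ev (P2 * Q3) (Complex.exp t) /
      (ev (Q2 * Q3) (Complex.exp t) * ev Q1 (Complex.exp t))) = Complex.exp t ^ 0 *
        Complex.exp (w 1 0)
    rw [ev_mul, ev_mul, e1, e2, pow_zero, one_mul]
    congr 1
    field_simp
  · show Complex.exp (ev P1 (Complex.exp t) * ev (P3 * Q2) (Complex.exp t) /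
      (ev (Q2 * Q3) (Complex.exp t) * ev Q1 (Complex.exp t))) = Complex.exp t ^ 1 *
        Complex.exp (w 1 1)
    rw [ev_mul, ev_mul, e1, e3, pow_one, ← Complex.exp_add]
    congr 1
    field_simp
    linear_combination -hdet

end Pool.Agent.H90.EI.PARX
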