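import Pool.Agent.H51.EI.TargetsB
import Pool.Agent.H19.EE.SUMS
import Pool.Agent.H19.EE.SEP

set_option autoImplicit false

open Finset Filter

namespace Pool.Agent.H90.EI.SEPG

open Pool.Agent.H25.EE (Ix mlt nd)

theorem mem_nd (J : ℕ) (x : ℤ × ℤ) :
    x ∈ nd J ↔ (-(J : ℤ) ≤ x.1 ∧ x.1 ≤ J) ∧ (-(J : ℤ) ≤ x.2 ∧ x.2 ≤ J) := by
  unfold nd
  rw [mem_product, mem_Icc, mem_Icc]

theorem mlt_le_sq (σ : ℚ) (h0 : 0 < σ) (h1 : σ ≤ 1) (J : ℕ) (y : ℤ × ℤ) (hy : y ∈ nd J) :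
    (mlt σ J y : ℝ) ≤ (J : ℝ) ^ 2 := by
  have h := Pool.Agent.H19.EE.SUMS.mlt_le σ J y h0 hy
  rw [mem_nd] at hy
  obtain ⟨⟨a1, a2⟩, a3, a4⟩ := hy
  have b1 : -(J : ℝ) ≤ y.1 := by exact_mod_cast a1
  have b2 : (y.1 : ℝ) ≤ J := by exact_mod_cast a2
  have b3 : -(J : ℝ) ≤ y.2 := by exact_mod_cast a3
  have b4 : (y.2 : ℝ) ≤ J := by exact_mod_cast a4
  have c1 : 0 ≤ (J : ℝ) ^ 2 - (y.1 : ℝ) ^ 2 := by nlinarith
  have c2 : 0 ≤ (J : ℝ) ^ 2 - (y.2 : ℝ) ^ 2 := by nlinarith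
  have d1 : (J : ℝ) ^ 2 - (y.1 : ℝ) ^ 2 ≤ (J : ℝ) ^ 2 := by nlinarith [sq_nonneg (y.1 : ℝ)]
  have d2 : (J : ℝ) ^ 2 - (y.2 : ℝ) ^ 2 ≤ (J : ℝ) ^ 2 := by nlinarith [sq_nonneg (y.2 : ℝ)]
  have hσ1 : (σ : ℝ) ≤ 1 := by exact_mod_cast h1
  have hσ0 : (0 : ℝ) < σ := by exact_mod_cast h0
  refine h.trans ?_
  rcases Nat.eq_zero_or_pos J with hJ | hJ
  · subst hJ
    simp
  · have hJ' : (0 : ℝ) < J := by exact_mod_cast hJ
    have e1 : ((J : ℝ) ^ 2 - (y.1 : ℝ) ^ 2) * ((J : ℝ) ^ 2 - (y.2 : ℝ) ^ 2) ≤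
        (J : ℝ) ^ 2 * (J : ℝ) ^ 2 := mul_le_mul d1 d2 c2 (by positivity)
    calc (σ : ℝ) / (J : ℝ) ^ 2 *
          (((J : ℝ) ^ 2 - (y.1 : ℝ) ^ 2) * ((J : ℝ) ^ 2 - (y.2 : ℝ) ^ 2))
        ≤ 1 / (J : ℝ) ^ 2 * ((J : ℝ) ^ 2 * (J : ℝ) ^ 2) := by gcongr
      _ = (J : ℝ) ^ 2 := by field_simp

theorem mlt_ge (σ : ℚ) (J : ℕ) (x : ℤ × ℤ) : (σ : ℝ) / (J : ℝ) ^ 2 *
    (((J : ℝ) ^ 2 - (x.1 : ℝ) ^ 2) * ((J : ℝ) ^ 2 - (x.2 : ℝ) ^ 2)) - 1 ≤ (mlt σ J x : ℝ) := by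
  have h := (Nat.sub_one_lt_floor
    (σ * (((J : ℚ) ^ 2 - (x.1 : ℚ) ^ 2) * ((J : ℚ) ^ 2 - (x.2 : ℚ) ^ 2) / (J : ℚ) ^ 2))).le
  have h' : ((σ * (((J : ℚ) ^ 2 - (x.1 : ℚ) ^ 2) * ((J : ℚ) ^ 2 - (x.2 : ℚ) ^ 2) /
      (J : ℚ) ^ 2) - 1 : ℚ) : ℝ) ≤ ((mlt σ J x : ℕ) : ℝ) := by
    unfold mlt
    exact_mod_cast h
  refine le_trans (le_of_eq ?_) h'
  push_cast
  ring

theorem card_ge (σ : ℚ) (h0 : 0 < σ) (J : ℕ) (hJ : 1 ≤ J) :
    (σ : ℝ) * (J : ℝ) ^ 4 - (2 * J + 1) ^ 2 ≤ ((Ix σ J).card : ℝ) := by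
  have hJ1 : (1 : ℝ) ≤ J := by exact_mod_cast hJ
  have hJ0 : (0 : ℝ) < J := by linarith
  have hσ0 : (0 : ℝ) < σ := by exact_mod_cast h0
  rw [Pool.Agent.H19.EE.SEP.card_Ix, Nat.cast_sum]
  have h1 : ∑ y ∈ nd J, ((σ : ℝ) / (J : ℝ) ^ 2 *
      (((J : ℝ) ^ 2 - (y.1 : ℝ) ^ 2) * ((J : ℝ) ^ 2 - (y.2 : ℝ) ^ 2)) - 1 * 1) ≤
      ∑ y ∈ nd J, (mlt σ J y : ℝ) := by
    refine sum_le_sum fun y _ => ?_
    have := mlt_ge σ J y
    linarith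
  refine le_trans ?_ h1
  rw [sum_sub_distrib, ← mul_sum,
    Pool.Agent.H19.EE.SUMS.prodsum (fun a => (J : ℝ) ^ 2 - (a : ℝ) ^ 2)
      (fun a => (J : ℝ) ^ 2 - (a : ℝ) ^ 2),
    Pool.Agent.H19.EE.SUMS.prodsum (fun _ => (1 : ℝ)) (fun _ => (1 : ℝ)),
    Pool.Agent.H19.EE.SUMS.S0, Pool.Agent.H19.EE.SUMS.p0]
  have h2 : (J : ℝ) ^ 3 ≤ J * (4 * J ^ 2 - 1) / 3 := by nlinarith
  have h3 : (J : ℝ) ^ 3 * (J : ℝ) ^ 3 ≤
      (J * (4 * J ^ 2 - 1) / 3) * (J * (4 * J ^ 2 - 1) / 3) :=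
    mul_le_mul h2 h2 (by positivity) (le_trans (by positivity) h2)
  have h4 : (σ : ℝ) * (J : ℝ) ^ 4 = (σ : ℝ) / (J : ℝ) ^ 2 * ((J : ℝ) ^ 3 * (J : ℝ) ^ 3) := by
    field_simp
  rw [h4]
  have h5 := mul_le_mul_of_nonneg_left h3 (show (0 : ℝ) ≤ (σ : ℝ) / (J : ℝ) ^ 2 by positivity)
  nlinarith

theorem card_ge' (σ : ℚ) (h0 : 0 < σ) :
    ∃ J2 : ℕ, ∀ J ≥ J2, (σ : ℝ) / 2 * (J : ℝ) ^ 4 ≤ ((Ix σ J).card : ℝ) := by
  have hσ0 : (0 : ℝ) < σ := by exact_mod_cast h0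
  obtain ⟨J2, hJ2⟩ := exists_nat_ge (18 / (σ : ℝ))
  refine ⟨J2 + 1, fun J hJ => ?_⟩
  have hJ1 : 1 ≤ J := by omega
  have hJr : (1 : ℝ) ≤ J := by exact_mod_cast hJ1
  have h1 := card_ge σ h0 J hJ1
  have h2 : 18 / (σ : ℝ) ≤ J := hJ2.trans (by
    have : J2 ≤ J := by omega
    exact_mod_cast this)
  rw [div_le_iff₀ hσ0] at h2
  have h3 : ((2 : ℝ) * J + 1) ^ 2 ≤ 9 * (J : ℝ) ^ 2 := by nlinarith
  have h4 : 18 * (J : ℝ) ^ 2 ≤ (σ : ℝ) * (J : ℝ) ^ 4 := by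
    have e1 : (J : ℝ) ≤ (J : ℝ) ^ 2 := by nlinarith
    have e2 : 18 ≤ (J : ℝ) ^ 2 * σ := h2.trans (mul_le_mul_of_nonneg_right e1 hσ0.le)
    nlinarith [sq_nonneg (J : ℝ)]
  linarith

/-- linear algebra with a primitive vector -/
theorem prim (v : ℤ × ℤ) (hv : v ≠ 0) : ∃ v0 : ℤ × ℤ, v0 ≠ 0 ∧
    (∃ g : ℤ, v = (g * v0.1, g * v0.2)) ∧
    ∀ w : ℤ × ℤ, v.1 * w.2 = v.2 * w.1 → ∃ c : ℤ, w = (c * v0.1, c * v0.2) := by
  have hg : (Int.gcd v.1 v.2) ≠ 0 := by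
    intro h
    rw [Int.gcd_eq_zero_iff] at h
    exact hv (Prod.ext h.1 h.2)
  obtain ⟨a, ha⟩ := Int.gcd_dvd_left v.1 v.2
  obtain ⟨b, hb⟩ := Int.gcd_dvd_right v.1 v.2
  have hg' : ((Int.gcd v.1 v.2 : ℕ) : ℤ) ≠ 0 := by exact_mod_cast hg
  have hcop : IsCoprime a b := by
    have h1 := Int.gcd_eq_gcd_ab v.1 v.2
    refine ⟨Int.gcdA v.1 v.2, Int.gcdB v.1 v.2, ?_⟩
    have h2 : ((Int.gcd v.1 v.2 : ℕ) : ℤ) * (Int.gcdA v.1 v.2 * a + Int.gcdB v.1 v.2 * b) =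
        ((Int.gcd v.1 v.2 : ℕ) : ℤ) * 1 := by
      linear_combination -(Int.gcdA v.1 v.2) * ha - (Int.gcdB v.1 v.2) * hb - h1
    exact mul_left_cancel₀ hg' h2
  refine ⟨(a, b), ?_, ⟨((Int.gcd v.1 v.2 : ℕ) : ℤ), Prod.ext ha hb⟩, ?_⟩
  · intro h0
    rw [Prod.mk_eq_zero] at h0
    obtain ⟨h1, h2⟩ := h0
    rw [h1, h2] at hcop
    obtain ⟨p, q, hpq⟩ := hcop
    simp at hpq
  · intro w hw
    have h1 : a * w.2 = b * w.1 := by
      have h2 : ((Int.gcd v.1 v.2 : ℕ) : ℤ) * (a * w.2) = ((Int.gcd v.1 v.2 : ℕ) : ℤ) * (b * w.1) := by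
        rw [← mul_assoc, ← mul_assoc, ← ha, ← hb, hw]
      exact mul_left_cancel₀ hg' h2
    obtain ⟨p, q, hpq⟩ := hcop
    refine ⟨p * w.1 + q * w.2, Prod.ext ?_ ?_⟩
    · linear_combination (-w.1) * hpq - q * h1
    · linear_combination (-w.2) * hpq + p * h1

/-- nodes very near each other -/
theorem near (κ1 κ2 : ℂ) (C : ℝ) (hC : 0 ≤ C)
    (hk : ∀ m n : ℤ, (m ≠ 0 ∨ n ≠ 0) →
    Real.exp (-(C * (|(m : ℝ)| + |(n : ℝ)|) * Real.log (|(m : ℝ)| + |(n : ℝ)| + 1))) ≤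
      ‖(m : ℂ) * κ1 + n * κ2‖) (σ : ℚ) (h0 : 0 < σ) (h1 : σ ≤ 1) :
    ∃ J1 : ℕ, ∀ J ≥ J1, ∀ x ∈ nd J, -(8 * C * (J : ℝ) ^ 3 * Real.log (4 * J + 1)) ≤
      ∑ y ∈ ((nd J).erase x).filter fun y : ℤ × ℤ =>
        ‖((x.1 : ℂ) * κ1 + x.2 * κ2) - ((y.1 : ℂ) * κ1 + y.2 * κ2)‖ * (J : ℝ) ^ 2 < 1,
        (mlt σ J y : ℝ) *
          Real.log ‖((x.1 : ℂ) * κ1 + x.2 * κ2) - ((y.1 : ℂ) * κ1 + y.2 * κ2)‖ := by
  have hκ1 : 0 < ‖κ1‖ := by
    have h := hk 1 0 (Or.inl one_ne_zero)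
    have h2 := lt_of_lt_of_le (Real.exp_pos _) h
    simpa using h2
  obtain ⟨J1, hJ1⟩ := exists_nat_gt (4 / ‖κ1‖)
  refine ⟨J1 + 1, fun J hJ x hx => ?_⟩
  have hJ0 : 1 ≤ J := by omega
  have hJr : (1 : ℝ) ≤ J := by exact_mod_cast hJ0
  have hJκ : 4 < J * ‖κ1‖ := by
    have h2 : 4 / ‖κ1‖ < J := hJ1.trans_le (by
      have : J1 ≤ J := by omega
      exact_mod_cast this)
    rwa [div_lt_iff₀ hκ1] at h2
  have hdiff : ∀ y : ℤ × ℤ, ((x.1 : ℂ) * κ1 + x.2 * κ2) - ((y.1 : ℂ) * κ1 + y.2 * κ2) =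
      ((x.1 - y.1 : ℤ) : ℂ) * κ1 + ((x.2 - y.2 : ℤ) : ℂ) * κ2 := by
    intro y
    push_cast
    ring
  set N := ((nd J).erase x).filter fun y : ℤ × ℤ =>
        ‖((x.1 : ℂ) * κ1 + x.2 * κ2) - ((y.1 : ℂ) * κ1 + y.2 * κ2)‖ * (J : ℝ) ^ 2 < 1 with hN
  have hlog0 : 0 ≤ Real.log (4 * J + 1) := Real.log_nonneg (by linarith)
  have hL0 : 0 ≤ 8 * C * (J : ℝ) ^ 3 * Real.log (4 * J + 1) := by positivity
  rcases N.eq_empty_or_nonempty with hNe | ⟨z, hz⟩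
  · rw [hNe, sum_empty]
    linarith
  have hxx := (mem_nd J x).mp hx
  -- all the differences are parallel
  have hmem : ∀ y ∈ N, (x.1 - y.1, x.2 - y.2) ≠ (0 : ℤ × ℤ) ∧ |x.1 - y.1| ≤ 2 * J ∧
      |x.2 - y.2| ≤ 2 * J ∧
      ‖((x.1 - y.1 : ℤ) : ℂ) * κ1 + ((x.2 - y.2 : ℤ) : ℂ) * κ2‖ * (J : ℝ) ^ 2 < 1 := by
    intro y hy
    rw [hN, mem_filter, mem_erase, mem_nd, hdiff] at hy
    obtain ⟨⟨a1, ⟨a2, a3⟩, a4, a5⟩, a6⟩ := hy
    obtain ⟨⟨b1, b2⟩, b3, b4⟩ := hxx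
    refine ⟨?_, ?_, ?_, a6⟩
    · intro h
      rw [Prod.mk_eq_zero] at h
      exact a1 (Prod.ext (by omega) (by omega))
    · rw [abs_le]
      constructor <;> omega
    · rw [abs_le]
      constructor <;> omega
  obtain ⟨z1, z2, z3, z4⟩ := hmem z hz
  obtain ⟨v0, hv0, ⟨g, hg⟩, hpar⟩ := prim (x.1 - z.1, x.2 - z.2) z1
  have hdet : ∀ y ∈ N, (x.1 - z.1) * (x.2 - y.2) = (x.2 - z.2) * (x.1 - y.1) := by
    intro y hy
    obtain ⟨y1, y2, y3, y4⟩ := hmem y hy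
    by_contra hne
    set d : ℤ := (x.1 - z.1) * (x.2 - y.2) - (x.2 - z.2) * (x.1 - y.1) with hd
    have hd0 : d ≠ 0 := sub_ne_zero.mpr hne
    have hd1 : (1 : ℝ) ≤ ‖(d : ℂ)‖ := by
      rw [Complex.norm_intCast]
      exact_mod_cast Int.one_le_abs hd0
    have e1 : (d : ℂ) * κ1 = ((x.2 - y.2 : ℤ) : ℂ) *
        (((x.1 - z.1 : ℤ) : ℂ) * κ1 + ((x.2 - z.2 : ℤ) : ℂ) * κ2) -
        ((x.2 - z.2 : ℤ) : ℂ) *
        (((x.1 - y.1 : ℤ) : ℂ) * κ1 + ((x.2 - y.2 : ℤ) : ℂ) * κ2) := by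
      rw [hd]
      push_cast
      ring
    have e2 : ‖κ1‖ ≤ ‖(d : ℂ) * κ1‖ := by
      rw [norm_mul]
      nlinarith
    have e3 : ‖((x.2 - y.2 : ℤ) : ℂ)‖ ≤ 2 * J := by
      rw [Complex.norm_intCast]
      exact_mod_cast y3
    have e4 : ‖((x.2 - z.2 : ℤ) : ℂ)‖ ≤ 2 * J := by
      rw [Complex.norm_intCast]
      exact_mod_cast z3
    set A := ‖((x.1 - z.1 : ℤ) : ℂ) * κ1 + ((x.2 - z.2 : ℤ) : ℂ) * κ2‖ with hA
    set B := ‖((x.1 - y.1 : ℤ) : ℂ) * κ1 + ((x.2 - y.2 : ℤ) : ℂ) * κ2‖ with hB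
    have e5 : ‖(d : ℂ) * κ1‖ ≤ 2 * J * A + 2 * J * B := by
      rw [e1]
      refine (norm_sub_le _ _).trans ?_
      rw [norm_mul, norm_mul]
      gcongr
    have e6 : ‖κ1‖ * (J : ℝ) ^ 2 ≤ 2 * J * (A * (J : ℝ) ^ 2) + 2 * J * (B * (J : ℝ) ^ 2) := by
      have := mul_le_mul_of_nonneg_right (e2.trans e5) (sq_nonneg (J : ℝ))
      linarith
    have e7 : 2 * (J : ℝ) * (A * (J : ℝ) ^ 2) + 2 * J * (B * (J : ℝ) ^ 2) ≤ 4 * J := by
      nlinarith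
    nlinarith
  have hline : ∀ y ∈ N, ∃ c : ℤ, (x.1 - y.1, x.2 - y.2) = (c * v0.1, c * v0.2) := by
    intro y hy
    exact hpar (x.1 - y.1, x.2 - y.2) (hdet y hy)
  -- the size of the primitive vector
  set k0 : ℕ := max v0.1.natAbs v0.2.natAbs with hk0
  have hk01 : 1 ≤ k0 := by
    by_contra h
    have h2 : k0 = 0 := by omega
    rw [hk0] at h2
    have h3 : v0.1.natAbs = 0 := by omega
    have h4 : v0.2.natAbs = 0 := by omega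
    exact hv0 (Prod.ext (Int.natAbs_eq_zero.mp h3) (Int.natAbs_eq_zero.mp h4))
  have hck : ∀ c : ℤ, |c * v0.1| ≤ 2 * J → |c * v0.2| ≤ 2 * J → c.natAbs ≤ 2 * J / k0 := by
    intro c h2 h3
    rw [Nat.le_div_iff_mul_le (by omega)]
    have h4 : (c.natAbs * v0.1.natAbs : ℕ) ≤ 2 * J := by
      rw [← Int.natAbs_mul]
      zify
      exact h2
    have h5 : (c.natAbs * v0.2.natAbs : ℕ) ≤ 2 * J := by
      rw [← Int.natAbs_mul]
      zify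
      exact h3
    rw [hk0]
    rcases le_total v0.1.natAbs v0.2.natAbs with h | h
    · rw [max_eq_right h]
      exact h5
    · rw [max_eq_left h]
      exact h4
  obtain ⟨L, hL⟩ : ∃ L : ℕ, L = 2 * J / k0 := ⟨_, rfl⟩
  rw [← hL] at hck
  have hsub : N ⊆ ((Icc (-(L : ℤ)) L).erase 0).image fun c : ℤ =>
      (x.1 - c * v0.1, x.2 - c * v0.2) := by
    intro y hy
    obtain ⟨c, hc⟩ := hline y hy
    obtain ⟨y1, y2, y3, y4⟩ := hmem y hy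
    rw [Prod.mk.injEq] at hc
    obtain ⟨hc1, hc2⟩ := hc
    rw [mem_image]
    refine ⟨c, ?_, Prod.ext (by show x.1 - c * v0.1 = y.1; omega)
      (by show x.2 - c * v0.2 = y.2; omega)⟩
    have h2 := hck c (by rw [← hc1]; exact y2) (by rw [← hc2]; exact y3)
    rw [mem_erase, mem_Icc]
    refine ⟨?_, by omega, by omega⟩
    rintro rfl
    apply y1
    rw [hc1, hc2]
    simp
  have hcard : N.card ≤ 2 * L := by
    refine (card_le_card hsub).trans (card_image_le.trans ?_)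
    rw [card_erase_of_mem (by rw [mem_Icc]; omega), Int.card_Icc]
    omega
  have hNk : (N.card : ℝ) * k0 ≤ 4 * J := by
    have h2 : N.card * k0 ≤ 4 * J := by
      have h3 : L * k0 ≤ 2 * J := by
        rw [hL]
        exact Nat.div_mul_le_self _ _
      calc N.card * k0 ≤ 2 * L * k0 := Nat.mul_le_mul_right _ hcard
        _ = 2 * (L * k0) := by ring
        _ ≤ 2 * (2 * J) := Nat.mul_le_mul_left _ h3
        _ = 4 * J := by ring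
    exact_mod_cast h2
  -- the primitive vector
  have hv1 : |(v0.1 : ℝ)| ≤ k0 := by
    have : |v0.1| ≤ (k0 : ℤ) := by rw [Int.abs_eq_natAbs]; exact_mod_cast le_max_left _ _
    exact_mod_cast this
  have hv2 : |(v0.2 : ℝ)| ≤ k0 := by
    have : |v0.2| ≤ (k0 : ℤ) := by rw [Int.abs_eq_natAbs]; exact_mod_cast le_max_right _ _
    exact_mod_cast this
  have hk2J : (k0 : ℝ) ≤ 2 * J := by
    obtain ⟨c, hc⟩ := hline z hz
    rw [Prod.mk.injEq] at hc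
    obtain ⟨hc1, hc2⟩ := hc
    have hc0 : c ≠ 0 := by
      rintro rfl
      apply z1
      rw [hc1, hc2]
      simp
    have h2 := hck c (by rw [← hc1]; exact z2) (by rw [← hc2]; exact z3)
    rw [hL, Nat.le_div_iff_mul_le (by omega)] at h2
    have h3 : 1 ≤ c.natAbs := Int.natAbs_pos.mpr hc0
    have h4 : k0 ≤ 2 * J := by nlinarith
    exact_mod_cast h4
  have hv0ne : v0.1 ≠ 0 ∨ v0.2 ≠ 0 := by
    by_contra h
    push Not at h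
    exact hv0 (Prod.ext h.1 h.2)
  have hlow := hk v0.1 v0.2 hv0ne
  have hk0r : (1 : ℝ) ≤ k0 := by exact_mod_cast hk01
  have hlow2 : -(2 * C * k0 * Real.log (4 * J + 1)) ≤
      Real.log ‖(v0.1 : ℂ) * κ1 + v0.2 * κ2‖ := by
    have h2 := Real.log_le_log (Real.exp_pos _) hlow
    rw [Real.log_exp] at h2
    refine le_trans ?_ h2
    rw [neg_le_neg_iff]
    have h3 : |(v0.1 : ℝ)| + |(v0.2 : ℝ)| ≤ 2 * k0 := by linarith
    have h4 : Real.log (|(v0.1 : ℝ)| + |(v0.2 : ℝ)| + 1) ≤ Real.log (4 * J + 1) := by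
      refine Real.log_le_log (by positivity) (by linarith)
    have h5 : 0 ≤ Real.log (|(v0.1 : ℝ)| + |(v0.2 : ℝ)| + 1) :=
      Real.log_nonneg (by have := abs_nonneg (v0.1 : ℝ); have := abs_nonneg (v0.2 : ℝ); linarith)
    calc C * (|(v0.1 : ℝ)| + |(v0.2 : ℝ)|) * Real.log (|(v0.1 : ℝ)| + |(v0.2 : ℝ)| + 1)
        ≤ C * (2 * k0) * Real.log (4 * J + 1) := by gcongr
      _ = 2 * C * k0 * Real.log (4 * J + 1) := by ring
  have hterm : ∀ y ∈ N, -(2 * C * k0 * Real.log (4 * J + 1) * (J : ℝ) ^ 2) ≤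
      (mlt σ J y : ℝ) *
          Real.log ‖((x.1 : ℂ) * κ1 + x.2 * κ2) - ((y.1 : ℂ) * κ1 + y.2 * κ2)‖ := by
    intro y hy
    obtain ⟨c, hc⟩ := hline y hy
    obtain ⟨y1, y2, y3, y4⟩ := hmem y hy
    rw [Prod.mk.injEq] at hc
    obtain ⟨hc1, hc2⟩ := hc
    have hc0 : c ≠ 0 := by
      rintro rfl
      apply y1
      rw [hc1, hc2]
      simp
    have hpos : 0 < ‖(v0.1 : ℂ) * κ1 + v0.2 * κ2‖ := lt_of_lt_of_le (Real.exp_pos _) hlow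
    have h2 : ‖(v0.1 : ℂ) * κ1 + v0.2 * κ2‖ ≤
        ‖((x.1 : ℂ) * κ1 + x.2 * κ2) - ((y.1 : ℂ) * κ1 + y.2 * κ2)‖ := by
      rw [hdiff, hc1, hc2]
      have e1 : ((c * v0.1 : ℤ) : ℂ) * κ1 + ((c * v0.2 : ℤ) : ℂ) * κ2 =
          (c : ℂ) * ((v0.1 : ℂ) * κ1 + v0.2 * κ2) := by
        push_cast
        ring
      rw [e1, norm_mul, Complex.norm_intCast]
      have h3 : (1 : ℝ) ≤ |(c : ℝ)| := by exact_mod_cast Int.one_le_abs hc0
      nlinarith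
    have h3 : -(2 * C * k0 * Real.log (4 * J + 1)) ≤
        Real.log ‖((x.1 : ℂ) * κ1 + x.2 * κ2) - ((y.1 : ℂ) * κ1 + y.2 * κ2)‖ :=
      hlow2.trans (Real.log_le_log hpos h2)
    have hm1 : (mlt σ J y : ℝ) ≤ (J : ℝ) ^ 2 := by
      refine mlt_le_sq σ h0 h1 J y ?_
      rw [hN, mem_filter, mem_erase] at hy
      exact hy.1.2
    have hm0 : (0 : ℝ) ≤ mlt σ J y := Nat.cast_nonneg _
    have hq : 0 ≤ 2 * C * k0 * Real.log (4 * J + 1) := by positivity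
    calc -(2 * C * k0 * Real.log (4 * J + 1) * (J : ℝ) ^ 2)
        ≤ -(2 * C * k0 * Real.log (4 * J + 1) * (mlt σ J y : ℝ)) := by
          have := mul_le_mul_of_nonneg_left hm1 hq
          linarith
      _ = (mlt σ J y : ℝ) * -(2 * C * k0 * Real.log (4 * J + 1)) := by ring
      _ ≤ _ := mul_le_mul_of_nonneg_left h3 hm0
  have hsum := sum_le_sum hterm
  refine le_trans ?_ hsum
  rw [sum_const, nsmul_eq_mul]
  have hfin : (N.card : ℝ) * k0 * (2 * C * Real.log (4 * J + 1) * (J : ℝ) ^ 2) ≤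
      4 * J * (2 * C * Real.log (4 * J + 1) * (J : ℝ) ^ 2) := by
    gcongr
  nlinarith

theorem final (k A J2 P lJ lM η : ℝ) (hA0 : 0 ≤ A) (hJ2 : 0 ≤ J2) (hlM : 0 ≤ lM)
    (hlJ : 0 ≤ lJ) (h1 : lM ≤ η * lJ) (h2 : J2 ≤ η * k) (hk : 0 ≤ k)
    (h3 : A ≤ η * k) (h4 : P ≤ η * k) :
    (1 - 6 * η) * k * lJ ≤ (lJ - lM) * (k - J2 - A) - 2 * lJ * A - P * lJ := by
  have e1 : lM * k ≤ η * lJ * k := mul_le_mul_of_nonneg_right h1 hk
  have e2 : lJ * J2 ≤ lJ * (η * k) := mul_le_mul_of_nonneg_left h2 hlJ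
  have e3 : lJ * A ≤ lJ * (η * k) := mul_le_mul_of_nonneg_left h3 hlJ
  have e6 : lJ * P ≤ lJ * (η * k) := mul_le_mul_of_nonneg_left h4 hlJ
  have e4 : 0 ≤ lM * J2 := mul_nonneg hlM hJ2
  have e5 : 0 ≤ lM * A := mul_nonneg hlM hA0
  nlinarith

theorem gen (σ : ℚ) (D : ℤ × ℤ → ℤ × ℤ → ℝ) (hD : ∀ x y, x ≠ y → 0 < D x y)
    (C2 : ℝ) (hC2 : 0 ≤ C2) (hnear : ∃ J1 : ℕ, ∀ J ≥ J1, ∀ x ∈ nd J,
      -(C2 * (J : ℝ) ^ 3 * Real.log (4 * J + 1)) ≤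
      ∑ y ∈ ((nd J).erase x).filter fun y : ℤ × ℤ => D x y * (J : ℝ) ^ 2 < 1,
        (mlt σ J y : ℝ) * Real.log (D x y))
    (hstr : ∃ K : ℝ, ∀ J M : ℕ, 1 ≤ M → M ≤ J → ∀ x : ℤ × ℤ,
      (((nd J).filter fun y : ℤ × ℤ => D x y * M ≤ J).card : ℝ) ≤ K * (J : ℝ) ^ 2 / M)
    (h0 : 0 < σ) (h1 : σ ≤ 1) (ε : ℝ) (hε : 0 < ε) :
    ∃ J0 : ℕ, ∀ J ≥ J0, ∀ x ∈ nd J, Real.exp ((1 - ε) * (Ix σ J).card * Real.log J) ≤
      ∏ y ∈ (nd J).erase x, D x y ^ mlt σ J y := by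
  obtain ⟨J1, hnear⟩ := hnear
  obtain ⟨K, hstr⟩ := hstr
  obtain ⟨J2, hk⟩ := card_ge' σ h0
  have hσ0 : (0 : ℝ) < σ := by exact_mod_cast h0
  set c : ℝ := (σ : ℝ) / 2 with hc
  have hc0 : 0 < c := by positivity
  set η : ℝ := ε / 6 with hη
  have hη0 : 0 < η := by positivity
  obtain ⟨M0, hM0⟩ := exists_nat_ge (|K| / (c * η))
  set M : ℕ := M0 + 1 with hM
  have hM1 : 1 ≤ M := by omega
  have hMK : |K| / (c * η) ≤ M := hM0.trans (by rw [hM]; push_cast; linarith)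
  have ev1 : ∀ᶠ J : ℕ in atTop, Real.log M ≤ η * Real.log J := by
    have h1 : Tendsto (fun J : ℕ => η * Real.log J) atTop atTop :=
      (Real.tendsto_log_atTop.comp tendsto_natCast_atTop_atTop).const_mul_atTop (by positivity)
    exact h1.eventually_ge_atTop _
  have ev2 : ∀ᶠ J : ℕ in atTop, 1 / (c * η) ≤ (J : ℝ) := by
    exact (tendsto_natCast_atTop_atTop (R := ℝ)).eventually_ge_atTop _
  have ev3 : ∀ᶠ J : ℕ in atTop, 4 * C2 / (c * η) ≤ (J : ℝ) := by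
    exact (tendsto_natCast_atTop_atTop (R := ℝ)).eventually_ge_atTop _
  obtain ⟨J3, hJ3⟩ := eventually_atTop.mp (ev1.and (ev2.and ev3))
  refine ⟨max (max J1 J2) (max J3 (max M 2)), fun J hJ x hx => ?_⟩
  have hJ1 : J1 ≤ J := (le_max_left _ _).trans ((le_max_left _ _).trans hJ)
  have hJ2 : J2 ≤ J := (le_max_right _ _).trans ((le_max_left _ _).trans hJ)
  have hJ3' : J3 ≤ J := (le_max_left _ _).trans ((le_max_right _ _).trans hJ)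
  have hJM : M ≤ J := (le_max_left _ _).trans ((le_max_right _ _).trans
    ((le_max_right _ _).trans hJ))
  have hJtwo : 2 ≤ J := (le_max_right _ _).trans ((le_max_right _ _).trans
    ((le_max_right _ _).trans hJ))
  obtain ⟨hlog, hb1, hb2⟩ := hJ3 J hJ3'
  have hJr2 : (2 : ℝ) ≤ J := by exact_mod_cast hJtwo
  have hJr : (1 : ℝ) ≤ J := by linarith
  have hMr : (1 : ℝ) ≤ M := by exact_mod_cast hM1
  have hJMr : (M : ℝ) ≤ J := by exact_mod_cast hJM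
  have hlJ : 0 ≤ Real.log J := Real.log_nonneg hJr
  have hlM : 0 ≤ Real.log M := Real.log_nonneg hMr
  have hlMJ : Real.log M ≤ Real.log J := Real.log_le_log (by linarith) hJMr
  set k : ℝ := ((Ix σ J).card : ℝ) with hkdef
  have hkJ : c * (J : ℝ) ^ 4 ≤ k := hk J hJ2
  have hk0 : 0 ≤ k := Nat.cast_nonneg _
  have hpos : ∀ y ∈ (nd J).erase x, 0 < D x y := by
    intro y hy
    rw [mem_erase] at hy
    exact hD x y hy.1.symm
  have hprod : ∏ y ∈ (nd J).erase x, D x y ^ mlt σ J y =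
      Real.exp (∑ y ∈ (nd J).erase x, (mlt σ J y : ℝ) * Real.log (D x y)) := by
    rw [Real.exp_sum]
    refine prod_congr rfl fun y hy => ?_
    rw [Real.exp_nat_mul, Real.exp_log (hpos y hy)]
  rw [hprod, Real.exp_le_exp]
  set V := ((nd J).erase x).filter fun y : ℤ × ℤ => D x y * (J : ℝ) ^ 2 < 1 with hV
  set W := ((nd J).erase x).filter fun y : ℤ × ℤ => ¬ D x y * (J : ℝ) ^ 2 < 1 with hW
  set N := W.filter fun y : ℤ × ℤ => D x y * M ≤ J with hN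
  set F := W.filter fun y : ℤ × ℤ => ¬ D x y * M ≤ J with hF
  have hsplit0 : ∑ y ∈ (nd J).erase x, (mlt σ J y : ℝ) * Real.log (D x y) =
      ∑ y ∈ V, (mlt σ J y : ℝ) * Real.log (D x y) +
      ∑ y ∈ W, (mlt σ J y : ℝ) * Real.log (D x y) :=
    (sum_filter_add_sum_filter_not _ _ _).symm
  have hsplit : ∑ y ∈ W, (mlt σ J y : ℝ) * Real.log (D x y) =
      ∑ y ∈ N, (mlt σ J y : ℝ) * Real.log (D x y) +
      ∑ y ∈ F, (mlt σ J y : ℝ) * Real.log (D x y) :=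
    (sum_filter_add_sum_filter_not _ _ _).symm
  have hmr : ∀ y ∈ nd J, (mlt σ J y : ℝ) ≤ (J : ℝ) ^ 2 := fun y hy => mlt_le_sq σ h0 h1 J y hy
  set G := ((nd J).erase x).filter fun y : ℤ × ℤ => D x y * M ≤ J with hG
  have hGF : (nd J).erase x ⊆ G ∪ F := by
    intro y hy
    rw [mem_union, hG, hF, mem_filter, mem_filter]
    by_cases h : D x y * M ≤ J
    · exact Or.inl ⟨hy, h⟩
    · refine Or.inr ⟨?_, h⟩
      rw [hW, mem_filter]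
      refine ⟨hy, fun h2 => h ?_⟩
      have hp := hpos y hy
      have h3 : D x y ≤ 1 := by nlinarith
      nlinarith
  have hktot : k = (mlt σ J x : ℝ) + ∑ y ∈ (nd J).erase x, (mlt σ J y : ℝ) := by
    rw [hkdef, Pool.Agent.H19.EE.SEP.card_Ix, Nat.cast_sum]
    exact (add_sum_erase _ (fun y => (mlt σ J y : ℝ)) hx).symm
  have hkG : ∑ y ∈ (nd J).erase x, (mlt σ J y : ℝ) ≤
      ∑ y ∈ G, (mlt σ J y : ℝ) + ∑ y ∈ F, (mlt σ J y : ℝ) := by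
    refine (sum_le_sum_of_subset_of_nonneg hGF fun _ _ _ => Nat.cast_nonneg _).trans ?_
    rw [← sum_union_inter]
    exact le_add_of_nonneg_right (sum_nonneg fun _ _ => Nat.cast_nonneg _)
  have hGcard : (G.card : ℝ) ≤ K * (J : ℝ) ^ 2 / M := by
    refine le_trans ?_ (hstr J M hM1 hJM x)
    have : G.card ≤ ((nd J).filter fun y : ℤ × ℤ => D x y * M ≤ J).card := by
      refine card_le_card ?_
      rw [hG]
      exact filter_subset_filter _ (erase_subset _ _)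
    exact_mod_cast this
  have hNG : (N.card : ℝ) ≤ G.card := by
    have : N.card ≤ G.card := by
      refine card_le_card ?_
      rw [hG, hN, hW]
      exact filter_subset_filter _ (filter_subset _ _)
    exact_mod_cast this
  have hN1 : -(2 * Real.log J * ((J : ℝ) ^ 2 * G.card)) ≤
      ∑ y ∈ N, (mlt σ J y : ℝ) * Real.log (D x y) := by
    have h1 : ∑ _y ∈ N, -(2 * Real.log J * (J : ℝ) ^ 2) ≤
        ∑ y ∈ N, (mlt σ J y : ℝ) * Real.log (D x y) := by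
      refine sum_le_sum fun y hy => ?_
      rw [hN, mem_filter, hW, mem_filter] at hy
      obtain ⟨⟨hy1, hy2⟩, hy3⟩ := hy
      have hp := hpos y hy1
      rw [mem_erase] at hy1
      have h : 1 ≤ D x y * (J : ℝ) ^ 2 := not_lt.mp hy2
      have hl : -(2 * Real.log J) ≤ Real.log (D x y) := by
        have h2 := Real.log_le_log one_pos h
        rw [Real.log_one, Real.log_mul hp.ne' (by positivity), Real.log_pow] at h2
        push_cast at h2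
        linarith
      have hm1 := hmr y hy1.2
      have hm0 : (0 : ℝ) ≤ mlt σ J y := Nat.cast_nonneg _
      calc -(2 * Real.log J * (J : ℝ) ^ 2) ≤ -(2 * Real.log J * (mlt σ J y : ℝ)) := by
            have := mul_le_mul_of_nonneg_left hm1 (show 0 ≤ 2 * Real.log J by linarith)
            linarith
        _ = (mlt σ J y : ℝ) * -(2 * Real.log J) := by ring
        _ ≤ _ := mul_le_mul_of_nonneg_left hl hm0
    refine le_trans ?_ h1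
    rw [sum_const, nsmul_eq_mul]
    have e1 : 2 * Real.log J * (J : ℝ) ^ 2 * N.card ≤ 2 * Real.log J * (J : ℝ) ^ 2 * G.card := by
      gcongr
    linarith
  have hG2 : ∑ y ∈ G, (mlt σ J y : ℝ) ≤ (J : ℝ) ^ 2 * G.card := by
    have h1 : ∑ y ∈ G, (mlt σ J y : ℝ) ≤ ∑ _y ∈ G, (J : ℝ) ^ 2 := by
      refine sum_le_sum fun y hy => hmr y ?_
      rw [hG, mem_filter, mem_erase] at hy
      exact hy.1.2
    refine h1.trans (le_of_eq ?_)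
    rw [sum_const, nsmul_eq_mul]
    ring
  have hF1 : (Real.log J - Real.log M) * ∑ y ∈ F, (mlt σ J y : ℝ) ≤
      ∑ y ∈ F, (mlt σ J y : ℝ) * Real.log (D x y) := by
    rw [mul_sum]
    refine sum_le_sum fun y hy => ?_
    rw [hF, mem_filter, hW, mem_filter] at hy
    have hp := hpos y hy.1.1
    have h2 : (J : ℝ) < D x y * M := not_le.mp hy.2
    have h3 := Real.log_le_log (by linarith) h2.le
    rw [Real.log_mul hp.ne' (by linarith : (M : ℝ) ≠ 0)] at h3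
    rw [mul_comm]
    exact mul_le_mul_of_nonneg_left (by linarith) (Nat.cast_nonneg _)
  have hmx := hmr x hx
  have hF2 : k - (J : ℝ) ^ 2 - (J : ℝ) ^ 2 * G.card ≤ ∑ y ∈ F, (mlt σ J y : ℝ) := by
    linarith
  have hF3 : (Real.log J - Real.log M) * (k - (J : ℝ) ^ 2 - (J : ℝ) ^ 2 * G.card) ≤
      (Real.log J - Real.log M) * ∑ y ∈ F, (mlt σ J y : ℝ) :=
    mul_le_mul_of_nonneg_left hF2 (by linarith)
  have hcη : 0 < c * η := by positivity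
  have h3 : (J : ℝ) ^ 2 * G.card ≤ η * k := by
    have hMpos : (0 : ℝ) < M := by linarith
    have a1 : (G.card : ℝ) ≤ |K| * (J : ℝ) ^ 2 / M := by
      refine hGcard.trans ?_
      gcongr
      exact le_abs_self K
    have a2 : |K| ≤ M * (c * η) := by
      rwa [div_le_iff₀ hcη] at hMK
    have a3 : |K| * (J : ℝ) ^ 2 / M ≤ (c * η) * (J : ℝ) ^ 2 := by
      rw [div_le_iff₀ hMpos]
      have := mul_le_mul_of_nonneg_right a2 (sq_nonneg (J : ℝ))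
      linarith
    calc (J : ℝ) ^ 2 * G.card ≤ (J : ℝ) ^ 2 * ((c * η) * (J : ℝ) ^ 2) :=
          mul_le_mul_of_nonneg_left (a1.trans a3) (by positivity)
      _ = η * (c * (J : ℝ) ^ 4) := by ring
      _ ≤ η * k := mul_le_mul_of_nonneg_left hkJ (by positivity)
  have h2 : (J : ℝ) ^ 2 ≤ η * k := by
    rw [div_le_iff₀ hcη] at hb1
    have b1 : (J : ℝ) ≤ (J : ℝ) ^ 2 := by nlinarith
    have b2 : 1 ≤ (J : ℝ) ^ 2 * (c * η) := hb1.trans (mul_le_mul_of_nonneg_right b1 hcη.le)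
    calc (J : ℝ) ^ 2 = (J : ℝ) ^ 2 * 1 := by ring
      _ ≤ (J : ℝ) ^ 2 * ((J : ℝ) ^ 2 * (c * η)) := mul_le_mul_of_nonneg_left b2 (sq_nonneg _)
      _ = η * (c * (J : ℝ) ^ 4) := by ring
      _ ≤ η * k := mul_le_mul_of_nonneg_left hkJ (by positivity)
  have h4 : 4 * C2 * (J : ℝ) ^ 3 ≤ η * k := by
    rw [div_le_iff₀ hcη] at hb2
    calc 4 * C2 * (J : ℝ) ^ 3 ≤ (J * (c * η)) * (J : ℝ) ^ 3 :=
          mul_le_mul_of_nonneg_right hb2 (by positivity)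
      _ = η * (c * (J : ℝ) ^ 4) := by ring
      _ ≤ η * k := mul_le_mul_of_nonneg_left hkJ (by positivity)
  have hlog4 : Real.log (4 * J + 1) ≤ 4 * Real.log J := by
    have e1 : Real.log ((J : ℝ) ^ 4) = 4 * Real.log J := by
      rw [Real.log_pow]
      norm_num
    rw [← e1]
    refine Real.log_le_log (by positivity) ?_
    have e2 : (8 : ℝ) ≤ (J : ℝ) ^ 3 := by
      calc (8 : ℝ) = 2 ^ 3 := by norm_num
        _ ≤ (J : ℝ) ^ 3 := by gcongr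
    have e3 : 8 * (J : ℝ) ≤ (J : ℝ) ^ 4 := by
      calc 8 * (J : ℝ) ≤ (J : ℝ) ^ 3 * J := by gcongr
        _ = (J : ℝ) ^ 4 := by ring
    linarith
  have hV1 := hnear J hJ1 x hx
  have hV2 : -(4 * C2 * (J : ℝ) ^ 3 * Real.log J) ≤
      ∑ y ∈ V, (mlt σ J y : ℝ) * Real.log (D x y) := by
    refine le_trans ?_ hV1
    rw [neg_le_neg_iff]
    calc C2 * (J : ℝ) ^ 3 * Real.log (4 * J + 1) ≤ C2 * (J : ℝ) ^ 3 * (4 * Real.log J) := by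
          gcongr
      _ = 4 * C2 * (J : ℝ) ^ 3 * Real.log J := by ring
  have hfin := final k ((J : ℝ) ^ 2 * G.card) ((J : ℝ) ^ 2) (4 * C2 * (J : ℝ) ^ 3) (Real.log J)
    (Real.log M) η (by positivity) (by positivity) hlM hlJ hlog h2 hk0 h3 h4
  have h6 : 6 * η = ε := by rw [hη]; ring
  rw [h6] at hfin
  rw [hsplit0, hsplit]
  linarith

open Pool.Agent.H51.EI in
theorem pf_SEPG (hSTR : Pool.Agent.H25.EE.T_STR) : T_SEPG := by
  intro κ1 κ2 C σ hC h0 h1 hk ε hε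
  have h1' : σ ≤ 1 := h1.trans (by norm_num)
  have hdiff : ∀ x y : ℤ × ℤ, ((x.1 : ℂ) * κ1 + x.2 * κ2) - ((y.1 : ℂ) * κ1 + y.2 * κ2) =
      ((x.1 - y.1 : ℤ) : ℂ) * κ1 + ((x.2 - y.2 : ℤ) : ℂ) * κ2 := by
    intro x y
    push_cast
    ring
  have hκ1 : κ1 ≠ 0 := by
    have h := hk 1 0 (Or.inl one_ne_zero)
    have h2 := lt_of_lt_of_le (Real.exp_pos _) h
    simpa using h2
  refine gen σ (fun x y => ‖((x.1 : ℂ) * κ1 + x.2 * κ2) - ((y.1 : ℂ) * κ1 + y.2 * κ2)‖)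
    ?_ (8 * C) (by positivity) (near κ1 κ2 C hC hk σ h0 h1') ?_ h0 h1' ε hε
  · intro x y hxy
    simp only [hdiff]
    refine lt_of_lt_of_le (Real.exp_pos _) (hk (x.1 - y.1) (x.2 - y.2) ?_)
    by_contra hcon
    push Not at hcon
    exact hxy (Prod.ext (by omega) (by omega))
  · have hne : κ1.re ≠ 0 ∨ κ1.im ≠ 0 := by
      by_contra hcon
      push Not at hcon
      exact hκ1 (Complex.ext hcon.1 hcon.2)
    rcases hne with hre | him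
    · obtain ⟨K, hK⟩ := hSTR κ1.re κ2.re hre
      refine ⟨K, fun J M hM hMJ x => le_trans ?_ (hK J M hM hMJ x)⟩
      have : ((nd J).filter fun y : ℤ × ℤ =>
          ‖((x.1 : ℂ) * κ1 + x.2 * κ2) - ((y.1 : ℂ) * κ1 + y.2 * κ2)‖ * M ≤ J).card ≤
          ((nd J).filter fun y : ℤ × ℤ => |((x.1 : ℝ) * κ1.re + x.2 * κ2.re) -
            ((y.1 : ℝ) * κ1.re + y.2 * κ2.re)| * M ≤ J).card := by
        refine card_le_card fun y hy => ?_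
        rw [mem_filter] at hy ⊢
        refine ⟨hy.1, le_trans ?_ hy.2⟩
        refine mul_le_mul_of_nonneg_right ?_ (Nat.cast_nonneg _)
        have h3 := Complex.abs_re_le_norm
          (((x.1 : ℂ) * κ1 + x.2 * κ2) - ((y.1 : ℂ) * κ1 + y.2 * κ2))
        refine le_trans (le_of_eq ?_) h3
        simp
      exact_mod_cast this
    · obtain ⟨K, hK⟩ := hSTR κ1.im κ2.im him
      refine ⟨K, fun J M hM hMJ x => le_trans ?_ (hK J M hM hMJ x)⟩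
      have : ((nd J).filter fun y : ℤ × ℤ =>
          ‖((x.1 : ℂ) * κ1 + x.2 * κ2) - ((y.1 : ℂ) * κ1 + y.2 * κ2)‖ * M ≤ J).card ≤
          ((nd J).filter fun y : ℤ × ℤ => |((x.1 : ℝ) * κ1.im + x.2 * κ2.im) -
            ((y.1 : ℝ) * κ1.im + y.2 * κ2.im)| * M ≤ J).card := by
        refine card_le_card fun y hy => ?_
        rw [mem_filter] at hy ⊢
        refine ⟨hy.1, le_trans ?_ hy.2⟩
        refine mul_le_mul_of_nonneg_right ?_ (Nat.cast_nonneg _)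
        have h3 := Complex.abs_im_le_norm
          (((x.1 : ℂ) * κ1 + x.2 * κ2) - ((y.1 : ℂ) * κ1 + y.2 * κ2))
        refine le_trans (le_of_eq ?_) h3
        simp
      exact_mod_cast this

end Pool.Agent.H90.EI.SEPG
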